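import Mathlib

/-!
# A point outside finitely many polynomial images of small dimension, over every field
-/

set_option autoImplicit false

namespace Pool.Agent.Y209.TU

open MvPolynomial Cardinal

universe u

/-- polynomials in too few variables are algebraically dependent -/
theorem exists_relation {F : Type u} [Field F] {σ τ : Type} [Fintype σ] [Fintype τ]
    (p : τ → MvPolynomial σ F) (h : Fintype.card σ < Fintype.card τ) :
    ∃ Q : MvPolynomial τ F, Q ≠ 0 ∧ aeval p Q = 0 := by
  by_contra hcon
  push Not at hcon
  have hai : AlgebraicIndependent F p := by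
    rw [algebraicIndependent_iff]
    intro Q hQ
    by_contra h0
    exact hcon Q h0 hQ
  have h1 := hai.lift_cardinalMk_le_trdeg
  rw [MvPolynomial.trdeg_of_isDomain] at h1
  simp only [Cardinal.mk_fintype, Cardinal.lift_natCast, Nat.cast_le] at h1
  omega

/-- Finitely many polynomial maps to `F ^ τ`, each from a space with at least `card ι` fewer
variables, do not cover `F ^ τ`. -/
theorem avoid {F : Type u} [Field F] {ι τ : Type} [Fintype ι] [Fintype τ] (σ : ι → Type)
    [∀ i, Fintype (σ i)] (p : ∀ i, τ → MvPolynomial (σ i) F)
    (h : ∀ i, Fintype.card (σ i) + Fintype.card ι ≤ Fintype.card τ) :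
    ∃ t : τ → F, ∀ i, ∀ s : σ i → F, ∃ y, t y ≠ eval s (p i y) := by
  classical
  rcases isEmpty_or_nonempty ι with hι | hι
  · exact ⟨0, fun i => (hι.false i).elim⟩
  rcases finite_or_infinite F with hF | hF
  · haveI := Fintype.ofFinite F
    by_contra hcon
    push Not at hcon
    -- every point is in an image
    have hsurj : Function.Surjective
        (fun x : (Σ i, (σ i → F)) => (fun y => eval x.2 (p x.1 y) : τ → F)) := by
      intro t
      obtain ⟨i, s, hs⟩ := hcon t
      exact ⟨⟨i, s⟩, (funext hs).symm⟩
    have hc := Fintype.card_le_of_surjective _ hsurj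
    rw [Fintype.card_fun, Fintype.card_sigma] at hc
    simp only [Fintype.card_fun] at hc
    set q := Fintype.card F with hq
    have hq2 : 2 ≤ q := Fintype.one_lt_card
    set n := Fintype.card ι with hn
    have hn1 : 1 ≤ n := Fintype.card_pos
    set N := Fintype.card τ with hN
    have hnN : n ≤ N := by
      obtain ⟨i⟩ := hι
      have := h i
      omega
    have h1 : ∑ i, q ^ Fintype.card (σ i) ≤ n * q ^ (N - n) := by
      calc ∑ i, q ^ Fintype.card (σ i) ≤ ∑ _i : ι, q ^ (N - n) :=
            Finset.sum_le_sum fun i _ => Nat.pow_le_pow_right (by omega) (by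
              have := h i
              omega)
        _ = n * q ^ (N - n) := by
            rw [Finset.sum_const, Finset.card_univ, smul_eq_mul]
    have h2 : n < q ^ n := lt_of_lt_of_le (Nat.lt_two_pow_self) (Nat.pow_le_pow_left hq2 n)
    have h3 : q ^ N = q ^ n * q ^ (N - n) := by
      rw [← pow_add]
      congr 1
      omega
    have h4 : 0 < q ^ (N - n) := by positivity
    have h5 : n * q ^ (N - n) < q ^ n * q ^ (N - n) := Nat.mul_lt_mul_of_pos_right h2 h4
    omega
  · have hlt : ∀ i, Fintype.card (σ i) < Fintype.card τ := by
      intro i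
      have := h i
      have hn1 : 1 ≤ Fintype.card ι := Fintype.card_pos
      omega
    choose Q hQ0 hQ using fun i => exists_relation (p i) (hlt i)
    have hprod : (∏ i, Q i) ≠ 0 := Finset.prod_ne_zero_iff.2 fun i _ => hQ0 i
    obtain ⟨t, ht⟩ : ∃ t : τ → F, eval t (∏ i, Q i) ≠ 0 := by
      by_contra hcon
      push Not at hcon
      exact hprod (MvPolynomial.funext fun t => by rw [hcon t, map_zero])
    refine ⟨t, fun i s => ?_⟩
    by_contra hcon
    push Not at hcon
    have hts : t = fun y => eval s (p i y) := funext hcon
    rw [map_prod, Finset.prod_ne_zero_iff] at ht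
    refine ht i (Finset.mem_univ _) ?_
    have h1 : eval s (aeval (p i) (Q i)) = 0 := by rw [hQ i, map_zero]
    have h2 : eval s (aeval (p i) (Q i)) = eval t (Q i) := by
      rw [hts]
      have h3 : ((eval s : MvPolynomial (σ i) F →+* F).comp
          (aeval (p i) : MvPolynomial τ F →ₐ[F] MvPolynomial (σ i) F).toRingHom) =
          eval (fun y => eval s (p i y)) := by
        apply MvPolynomial.ringHom_ext
        · intro r
          simp
        · intro y
          simp
      exact RingHom.congr_fun h3 (Q i)
    rw [← h2, h1]

end Pool.Agent.Y209.TU
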