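import Mathlib
import Pool.Agent.H759R3.TensorDefs

/-!
# 3-tensors on arbitrary finite index types
-/

set_option autoImplicit false

namespace Pool.Agent.Y209.TU

open Pool.Agent.H759R3.Tensor

universe u

variable {F : Type u} [Field F]

/-- restriction for tensors on arbitrary index types -/
def Res {I₁ I₂ I₃ J₁ J₂ J₃ : Type} [Fintype J₁] [Fintype J₂] [Fintype J₃]
    (X : I₁ → I₂ → I₃ → F) (Y : J₁ → J₂ → J₃ → F) : Prop :=
  ∃ (A : I₁ → J₁ → F) (B : I₂ → J₂ → F) (C : I₃ → J₃ → F),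
    ∀ i j k, X i j k = ∑ i', ∑ j', ∑ k', A i i' * B j j' * C k k' * Y i' j' k'

/-- the 3-tensor of a tensor on finite index types -/
noncomputable def toT3 {I₁ I₂ I₃ : Type} [Fintype I₁] [Fintype I₂] [Fintype I₃]
    (X : I₁ → I₂ → I₃ → F) : T3 F where
  n₁ := Fintype.card I₁
  n₂ := Fintype.card I₂
  n₃ := Fintype.card I₃
  val := fun i j k => X ((Fintype.equivFin I₁).symm i) ((Fintype.equivFin I₂).symm j)
    ((Fintype.equivFin I₃).symm k)

theorem restricts_toT3 {I₁ I₂ I₃ J₁ J₂ J₃ : Type} [Fintype I₁] [Fintype I₂] [Fintype I₃]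
    [Fintype J₁] [Fintype J₂] [Fintype J₃] (X : I₁ → I₂ → I₃ → F) (Y : J₁ → J₂ → J₃ → F) :
    Restricts (toT3 X) (toT3 Y) ↔ Res X Y := by
  constructor
  · rintro ⟨A, B, C, h⟩
    refine ⟨fun i i' => A (Fintype.equivFin I₁ i) (Fintype.equivFin J₁ i'),
      fun j j' => B (Fintype.equivFin I₂ j) (Fintype.equivFin J₂ j'),
      fun k k' => C (Fintype.equivFin I₃ k) (Fintype.equivFin J₃ k'), fun i j k => ?_⟩
    have h1 := congrFun (congrFun (congrFun h (Fintype.equivFin I₁ i)) (Fintype.equivFin I₂ j))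
      (Fintype.equivFin I₃ k)
    simp only [toT3, Equiv.symm_apply_apply] at h1
    rw [h1]
    unfold act
    rw [← (Fintype.equivFin J₁).sum_comp]
    refine Finset.sum_congr rfl fun i' _ => ?_
    rw [← (Fintype.equivFin J₂).sum_comp]
    refine Finset.sum_congr rfl fun j' _ => ?_
    rw [← (Fintype.equivFin J₃).sum_comp]
    refine Finset.sum_congr rfl fun k' _ => ?_
    simp only [Equiv.symm_apply_apply]
  · rintro ⟨A, B, C, h⟩
    refine ⟨fun i i' => A ((Fintype.equivFin I₁).symm i) ((Fintype.equivFin J₁).symm i'),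
      fun j j' => B ((Fintype.equivFin I₂).symm j) ((Fintype.equivFin J₂).symm j'),
      fun k k' => C ((Fintype.equivFin I₃).symm k) ((Fintype.equivFin J₃).symm k'), ?_⟩
    funext i j k
    show X _ _ _ = _
    rw [h]
    unfold act
    rw [← (Fintype.equivFin J₁).symm.sum_comp]
    refine Finset.sum_congr rfl fun i' _ => ?_
    rw [← (Fintype.equivFin J₂).symm.sum_comp]
    refine Finset.sum_congr rfl fun j' _ => ?_
    rw [← (Fintype.equivFin J₃).symm.sum_comp]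
    rfl

theorem Res.trans {I₁ I₂ I₃ J₁ J₂ J₃ K₁ K₂ K₃ : Type} [Fintype I₁] [Fintype I₂] [Fintype I₃]
    [Fintype J₁] [Fintype J₂] [Fintype J₃] [Fintype K₁] [Fintype K₂] [Fintype K₃]
    {X : I₁ → I₂ → I₃ → F} {Y : J₁ → J₂ → J₃ → F} {Z : K₁ → K₂ → K₃ → F}
    (h1 : Res X Y) (h2 : Res Y Z) : Res X Z := by
  rw [← restricts_toT3] at h1 h2 ⊢
  exact h1.trans h2

/-- direct sum -/
def ds {I₁ I₂ I₃ J₁ J₂ J₃ : Type} (X : I₁ → I₂ → I₃ → F) (Y : J₁ → J₂ → J₃ → F) :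
    I₁ ⊕ J₁ → I₂ ⊕ J₂ → I₃ ⊕ J₃ → F
  | Sum.inl i, Sum.inl j, Sum.inl k => X i j k
  | Sum.inr i, Sum.inr j, Sum.inr k => Y i j k
  | _, _, _ => 0

theorem sum_ds {I₁ I₂ I₃ J₁ J₂ J₃ : Type} [Fintype I₁] [Fintype I₂] [Fintype I₃]
    [Fintype J₁] [Fintype J₂] [Fintype J₃] (X : I₁ → I₂ → I₃ → F) (Y : J₁ → J₂ → J₃ → F)
    (a : I₁ ⊕ J₁ → F) (b : I₂ ⊕ J₂ → F) (c : I₃ ⊕ J₃ → F) :
    ∑ i, ∑ j, ∑ k, a i * b j * c k * ds X Y i j k =
      (∑ i, ∑ j, ∑ k, a (Sum.inl i) * b (Sum.inl j) * c (Sum.inl k) * X i j k) +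
      ∑ i, ∑ j, ∑ k, a (Sum.inr i) * b (Sum.inr j) * c (Sum.inr k) * Y i j k := by
  simp [Fintype.sum_sum_type, ds]

/-- direct sums are monotone -/
theorem Res.ds {I₁ I₂ I₃ J₁ J₂ J₃ I₁' I₂' I₃' J₁' J₂' J₃' : Type} [Fintype I₁'] [Fintype I₂']
    [Fintype I₃'] [Fintype J₁'] [Fintype J₂'] [Fintype J₃']
    {X : I₁ → I₂ → I₃ → F} {Y : J₁ → J₂ → J₃ → F}
    {X' : I₁' → I₂' → I₃' → F} {Y' : J₁' → J₂' → J₃' → F} (h1 : Res X X') (h2 : Res Y Y') :
    Res (TU.ds X Y) (TU.ds X' Y') := by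
  obtain ⟨A, B, C, h⟩ := h1
  obtain ⟨A', B', C', h'⟩ := h2
  refine ⟨fun x y => Sum.elim (fun i => Sum.elim (A i) (fun _ => 0) y)
      (fun i => Sum.elim (fun _ => 0) (A' i) y) x,
    fun x y => Sum.elim (fun i => Sum.elim (B i) (fun _ => 0) y)
      (fun i => Sum.elim (fun _ => 0) (B' i) y) x,
    fun x y => Sum.elim (fun i => Sum.elim (C i) (fun _ => 0) y)
      (fun i => Sum.elim (fun _ => 0) (C' i) y) x, fun i j k => ?_⟩
  rw [sum_ds]
  rcases i with i | i <;> rcases j with j | j <;> rcases k with k | k <;>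
    simp [TU.ds, h, h']

theorem res_left {I₁ I₂ I₃ J₁ J₂ J₃ : Type} [Fintype I₁] [Fintype I₂] [Fintype I₃]
    [Fintype J₁] [Fintype J₂] [Fintype J₃] [DecidableEq I₁] [DecidableEq I₂] [DecidableEq I₃]
    (X : I₁ → I₂ → I₃ → F) (Y : J₁ → J₂ → J₃ → F) : Res X (TU.ds X Y) := by
  refine ⟨fun i y => Sum.elim (fun i' => if i = i' then 1 else 0) (fun _ => 0) y,
    fun i y => Sum.elim (fun i' => if i = i' then 1 else 0) (fun _ => 0) y,
    fun i y => Sum.elim (fun i' => if i = i' then 1 else 0) (fun _ => 0) y, fun i j k => ?_⟩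
  rw [sum_ds]
  simp

theorem res_right {I₁ I₂ I₃ J₁ J₂ J₃ : Type} [Fintype I₁] [Fintype I₂] [Fintype I₃]
    [Fintype J₁] [Fintype J₂] [Fintype J₃] [DecidableEq J₁] [DecidableEq J₂] [DecidableEq J₃]
    (X : I₁ → I₂ → I₃ → F) (Y : J₁ → J₂ → J₃ → F) : Res Y (TU.ds X Y) := by
  refine ⟨fun i y => Sum.elim (fun _ => 0) (fun i' => if i = i' then 1 else 0) y,
    fun i y => Sum.elim (fun _ => 0) (fun i' => if i = i' then 1 else 0) y,
    fun i y => Sum.elim (fun _ => 0) (fun i' => if i = i' then 1 else 0) y, fun i j k => ?_⟩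
  rw [sum_ds]
  simp

/-- a restriction of a direct sum is a sum of restrictions -/
theorem Res.of_ds {I₁ I₂ I₃ J₁ J₂ J₃ K₁ K₂ K₃ : Type} [Fintype J₁] [Fintype J₂] [Fintype J₃]
    [Fintype K₁] [Fintype K₂] [Fintype K₃]
    {X : I₁ → I₂ → I₃ → F} {Y : J₁ → J₂ → J₃ → F} {Z : K₁ → K₂ → K₃ → F}
    (h : Res X (TU.ds Y Z)) : ∃ X₁ X₂ : I₁ → I₂ → I₃ → F, Res X₁ Y ∧ Res X₂ Z ∧
      ∀ i j k, X i j k = X₁ i j k + X₂ i j k := by
  obtain ⟨A, B, C, h⟩ := h
  refine ⟨_, _, ⟨fun i i' => A i (Sum.inl i'), fun i i' => B i (Sum.inl i'),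
    fun i i' => C i (Sum.inl i'), fun i j k => rfl⟩, ⟨fun i i' => A i (Sum.inr i'),
    fun i i' => B i (Sum.inr i'), fun i i' => C i (Sum.inr i'), fun i j k => rfl⟩,
    fun i j k => ?_⟩
  rw [h, sum_ds]

/-- exchange of the first two directions -/
def sw {I₁ I₂ I₃ : Type} (X : I₁ → I₂ → I₃ → F) : I₂ → I₁ → I₃ → F := fun j i k => X i j k

/-- exchange of the first and the third direction -/
def sx {I₁ I₂ I₃ : Type} (X : I₁ → I₂ → I₃ → F) : I₃ → I₂ → I₁ → F := fun k j i => X i j k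

theorem Res.sw {I₁ I₂ I₃ J₁ J₂ J₃ : Type} [Fintype J₁] [Fintype J₂] [Fintype J₃]
    {X : I₁ → I₂ → I₃ → F} {Y : J₁ → J₂ → J₃ → F} (h : Res X Y) : Res (TU.sw X) (TU.sw Y) := by
  obtain ⟨A, B, C, h⟩ := h
  refine ⟨B, A, C, fun j i k => ?_⟩
  show X i j k = _
  rw [h, Finset.sum_comm]
  refine Finset.sum_congr rfl fun _ _ => Finset.sum_congr rfl fun _ _ =>
    Finset.sum_congr rfl fun _ _ => ?_
  show _ = _ * _ * _ * Y _ _ _
  ring

theorem Res.sx {I₁ I₂ I₃ J₁ J₂ J₃ : Type} [Fintype J₁] [Fintype J₂] [Fintype J₃]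
    {X : I₁ → I₂ → I₃ → F} {Y : J₁ → J₂ → J₃ → F} (h : Res X Y) : Res (TU.sx X) (TU.sx Y) := by
  obtain ⟨A, B, C, h⟩ := h
  refine ⟨C, B, A, fun k j i => ?_⟩
  show X i j k = _
  rw [h]
  have e : ∀ f : J₁ → J₂ → J₃ → F, ∑ i', ∑ j', ∑ k', f i' j' k' = ∑ k', ∑ j', ∑ i', f i' j' k' := by
    intro f
    have e1 : ∀ i', ∑ j', ∑ k', f i' j' k' = ∑ k', ∑ j', f i' j' k' := fun i' =>
      Finset.sum_comm
    simp_rw [e1]
    rw [Finset.sum_comm]
    refine Finset.sum_congr rfl fun _ _ => ?_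
    rw [Finset.sum_comm]
  rw [e]
  refine Finset.sum_congr rfl fun _ _ => Finset.sum_congr rfl fun _ _ =>
    Finset.sum_congr rfl fun _ _ => ?_
  show _ = _ * _ * _ * Y _ _ _
  ring

theorem sw_ds {I₁ I₂ I₃ J₁ J₂ J₃ : Type} (X : I₁ → I₂ → I₃ → F) (Y : J₁ → J₂ → J₃ → F) :
    sw (TU.ds X Y) = TU.ds (sw X) (sw Y) := by
  funext j i k
  rcases i with i | i <;> rcases j with j | j <;> rcases k with k | k <;> rfl

theorem sx_ds {I₁ I₂ I₃ J₁ J₂ J₃ : Type} (X : I₁ → I₂ → I₃ → F) (Y : J₁ → J₂ → J₃ → F) :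
    sx (TU.ds X Y) = TU.ds (sx X) (sx Y) := by
  funext k j i
  rcases i with i | i <;> rcases j with j | j <;> rcases k with k | k <;> rfl

/-- all the contractions in the first direction have rank at most `m` -/
def RkLe {I₁ I₂ I₃ : Type} [Fintype I₁] [Fintype I₂] [Fintype I₃] (X : I₁ → I₂ → I₃ → F)
    (m : ℕ) : Prop :=
  ∀ x : I₁ → F, (Matrix.of fun j k => ∑ i, x i * X i j k : Matrix I₂ I₃ F).rank ≤ m

theorem RkLe.res {I₁ I₂ I₃ J₁ J₂ J₃ : Type} [Fintype I₁] [Fintype I₂] [Fintype I₃]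
    [Fintype J₁] [Fintype J₂] [Fintype J₃] {X : I₁ → I₂ → I₃ → F} {Y : J₁ → J₂ → J₃ → F}
    {m : ℕ} (hY : RkLe Y m) (h : Res X Y) : RkLe X m := by
  classical
  obtain ⟨A, B, C, h⟩ := h
  intro x
  have h1 := hY (fun i' => ∑ i, x i * A i i')
  have e : (Matrix.of fun j k => ∑ i, x i * X i j k : Matrix I₂ I₃ F) =
      (Matrix.of B : Matrix I₂ J₂ F) *
        (Matrix.of fun j k => ∑ i', (∑ i, x i * A i i') * Y i' j k : Matrix J₂ J₃ F) *
        (Matrix.of C : Matrix I₃ J₃ F).transpose := by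
    ext j k
    rw [Matrix.mul_apply]
    simp only [Matrix.mul_apply, Matrix.of_apply, Matrix.transpose_apply, h, Finset.sum_mul,
      Finset.mul_sum]
    rw [Finset.sum_comm]
    have e3 : ∀ f : I₁ → J₁ → J₂ → J₃ → F,
        ∑ i', ∑ i, ∑ j', ∑ k', f i i' j' k' = ∑ k', ∑ j', ∑ i', ∑ i, f i i' j' k' := by
      intro f
      have a1 : ∀ i', ∑ i, ∑ j', ∑ k', f i i' j' k' = ∑ k', ∑ j', ∑ i, f i i' j' k' := by
        intro i'
        have a2 : ∀ i, ∑ j', ∑ k', f i i' j' k' = ∑ k', ∑ j', f i i' j' k' := fun i =>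
          Finset.sum_comm
        simp_rw [a2]
        rw [Finset.sum_comm]
        refine Finset.sum_congr rfl fun _ _ => ?_
        rw [Finset.sum_comm]
      simp_rw [a1]
      rw [Finset.sum_comm]
      refine Finset.sum_congr rfl fun _ _ => ?_
      rw [Finset.sum_comm]
    rw [e3 (fun i i' j' k' => x i * (A i i' * B j j' * C k k' * Y i' j' k'))]
    refine Finset.sum_congr rfl fun _ _ => Finset.sum_congr rfl fun _ _ =>
      Finset.sum_congr rfl fun _ _ => Finset.sum_congr rfl fun _ _ => ?_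
    ring
  rw [e]
  exact ((Matrix.rank_mul_le_left _ _).trans (Matrix.rank_mul_le_right _ _)).trans h1

end Pool.Agent.Y209.TU
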