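import Mathlib
import Pool.Agent.Y209.TU.Avoid
import Pool.Agent.Y209.TU.Gen

/-!
# Independent families of 3-tensors and their block sums
-/

set_option autoImplicit false

namespace Pool.Agent.Y209.TU

open Pool.Agent.H759R3.Tensor MvPolynomial

universe u

variable {F : Type u} [Field F]

theorem rank_add {m n : Type} [Fintype m] [Fintype n] (M N : Matrix m n F) :
    (M + N).rank ≤ M.rank + N.rank := by
  classical
  unfold Matrix.rank
  rw [Matrix.mulVecLin_add]
  exact (Submodule.finrank_mono (LinearMap.range_add_le _ _)).trans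
    (Submodule.finrank_add_le_finrank_add_finrank _ _)

theorem RkLe.add {I₁ I₂ I₃ : Type} [Fintype I₁] [Fintype I₂] [Fintype I₃]
    {X Y Z : I₁ → I₂ → I₃ → F} {m m' : ℕ} (hX : RkLe X m) (hY : RkLe Y m')
    (h : ∀ i j k, Z i j k = X i j k + Y i j k) : RkLe Z (m + m') := by
  intro x
  have e : (Matrix.of fun j k => ∑ i, x i * Z i j k : Matrix I₂ I₃ F) =
      (Matrix.of fun j k => ∑ i, x i * X i j k) + Matrix.of fun j k => ∑ i, x i * Y i j k := by
    ext j k
    simp [h, mul_add, Finset.sum_add_distrib]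
  rw [e]
  exact (rank_add _ _).trans (Nat.add_le_add (hX x) (hY x))

theorem RkLe.ds {I₁ I₂ I₃ J₁ J₂ J₃ : Type} [Fintype I₁] [Fintype I₂] [Fintype I₃]
    [Fintype J₁] [Fintype J₂] [Fintype J₃] [DecidableEq I₁] [DecidableEq I₂] [DecidableEq I₃]
    [DecidableEq J₁] [DecidableEq J₂] [DecidableEq J₃] {X : I₁ → I₂ → I₃ → F}
    {Y : J₁ → J₂ → J₃ → F} {m m' : ℕ} (hX : RkLe X m) (hY : RkLe Y m') :
    RkLe (TU.ds X Y) (m + m') := by
  have h1 : Res (TU.ds X (0 : J₁ → J₂ → J₃ → F)) X := by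
    refine ⟨fun x i' => Sum.elim (fun i => if i = i' then 1 else 0) (fun _ => 0) x,
      fun x i' => Sum.elim (fun i => if i = i' then 1 else 0) (fun _ => 0) x,
      fun x i' => Sum.elim (fun i => if i = i' then 1 else 0) (fun _ => 0) x, fun i j k => ?_⟩
    rcases i with i | i <;> rcases j with j | j <;> rcases k with k | k <;> simp [TU.ds]
  have h2 : Res (TU.ds (0 : I₁ → I₂ → I₃ → F) Y) Y := by
    refine ⟨fun x i' => Sum.elim (fun _ => 0) (fun i => if i = i' then 1 else 0) x,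
      fun x i' => Sum.elim (fun _ => 0) (fun i => if i = i' then 1 else 0) x,
      fun x i' => Sum.elim (fun _ => 0) (fun i => if i = i' then 1 else 0) x, fun i j k => ?_⟩
    rcases i with i | i <;> rcases j with j | j <;> rcases k with k | k <;> simp [TU.ds]
  refine (hX.res h1).add (hY.res h2) fun i j k => ?_
  rcases i with i | i <;> rcases j with j | j <;> rcases k with k | k <;> simp [TU.ds]

theorem rkLe_width {I₁ I₂ I₃ : Type} [Fintype I₁] [Fintype I₂] [Fintype I₃]
    (X : I₁ → I₂ → I₃ → F) {m : ℕ} (h : Fintype.card I₃ ≤ m) : RkLe X m := fun _ =>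
  (Matrix.rank_le_card_width _).trans h

theorem rkLe_height {I₁ I₂ I₃ : Type} [Fintype I₁] [Fintype I₂] [Fintype I₃]
    (X : I₁ → I₂ → I₃ → F) {m : ℕ} (h : Fintype.card I₂ ≤ m) : RkLe X m := fun _ =>
  (Matrix.rank_le_card_height _).trans h

/-- the identity matrix of order `a` as a tensor of format `1 × a × a` -/
def EE (F : Type u) [Field F] (a : ℕ) : Unit → Fin a → Fin a → F :=
  fun _ j k => if j = k then 1 else 0

theorem EE_le {a m : ℕ} (h : RkLe (EE F a) m) : a ≤ m := by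
  classical
  have h1 := h (fun _ => 1)
  have e : (Matrix.of fun j k => ∑ i : Unit, 1 * EE F a i j k : Matrix (Fin a) (Fin a) F) = 1 := by
    ext j k
    simp [EE, Matrix.one_apply]
  rw [e, Matrix.rank_one, Fintype.card_fin] at h1
  exact h1

section

variable {ι : Type} [Fintype ι] [DecidableEq ι] {N : ℕ}

/-- block sum of the `t i`, `i ∈ A` -/
def TA (t : ι → Fin N → Fin N → Fin N → F) (A : Finset ι) :
    ι × Fin N → ι × Fin N → ι × Fin N → F :=
  fun x y z => if x.1 = y.1 ∧ y.1 = z.1 ∧ x.1 ∈ A then t x.1 x.2 y.2 z.2 else 0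

theorem TA_mono (t : ι → Fin N → Fin N → Fin N → F) {A B : Finset ι} (h : A ⊆ B) :
    Res (TA t A) (TA t B) := by
  refine ⟨fun x y => if x = y ∧ x.1 ∈ A then 1 else 0, fun x y => if x = y then 1 else 0,
    fun x y => if x = y then 1 else 0, fun i j k => ?_⟩
  rw [Finset.sum_eq_single i, Finset.sum_eq_single j, Finset.sum_eq_single k]
  · by_cases hi : i.1 ∈ A
    · have hB := h hi
      simp [TA, hi, hB]
    · simp [TA, hi]
  · intro x _ hx
    simp [hx.symm]
  · simp
  · intro x _ hx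
    simp [hx.symm]
  · simp
  · intro x _ hx
    simp [hx.symm]
  · simp

theorem res_TA (t : ι → Fin N → Fin N → Fin N → F) {A : Finset ι} {i : ι} (h : i ∈ A) :
    Res (t i) (TA t A) := by
  refine ⟨fun u x => if x = (i, u) then 1 else 0, fun u x => if x = (i, u) then 1 else 0,
    fun u x => if x = (i, u) then 1 else 0, fun a b c => ?_⟩
  rw [Finset.sum_eq_single (i, a), Finset.sum_eq_single (i, b), Finset.sum_eq_single (i, c)]
  · simp [TA, h]
  · intro x _ hx
    simp [hx]
  · simp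
  · intro x _ hx
    simp [hx]
  · simp
  · intro x _ hx
    simp [hx]
  · simp

/-- the correction tensors -/
def EEE (F : Type u) [Field F] (a b c : ℕ) :
    Unit ⊕ (Fin b ⊕ Fin c) → Fin a ⊕ (Unit ⊕ Fin c) → Fin a ⊕ (Fin b ⊕ Unit) → F :=
  TU.ds (EE F a) (TU.ds (sw (EE F b)) (sx (EE F c)))

theorem res_EE {I₁ I₂ I₃ : Type} {X : I₁ → I₂ → I₃ → F} {a : ℕ} (h : Res X (EE F a)) :
    ∃ (α : I₁ → F) (M : I₂ → I₃ → F), ∀ i j k, X i j k = α i * M j k := by
  obtain ⟨A, B, C, h⟩ := h
  refine ⟨fun i => A i (), fun j k => ∑ l, B j l * C k l, fun i j k => ?_⟩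
  rw [h]
  simp [EE, Finset.mul_sum, mul_assoc]

theorem res_EEE {I₁ I₂ I₃ : Type} {X : I₁ → I₂ → I₃ → F} {a b c : ℕ}
    (h : Res X (EEE F a b c)) :
    ∃ (α : I₁ → F) (M : I₂ → I₃ → F) (β : I₂ → F) (M' : I₁ → I₃ → F) (γ : I₃ → F)
      (M'' : I₂ → I₁ → F), ∀ i j k, X i j k = α i * M j k + (β j * M' i k + γ k * M'' j i) := by
  obtain ⟨X₁, X₂, h1, h2, h3⟩ := Res.of_ds h
  obtain ⟨X₃, X₄, h4, h5, h6⟩ := Res.of_ds h2
  obtain ⟨α, M, e1⟩ := res_EE h1
  have h4' : Res (sw X₃) (EE F b) := h4.sw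
  have h5' : Res (sx X₄) (EE F c) := h5.sx
  obtain ⟨β, M', e2⟩ := res_EE h4'
  obtain ⟨γ, M'', e3⟩ := res_EE h5'
  refine ⟨α, M, β, M', γ, M'', fun i j k => ?_⟩
  have e2' : X₃ i j k = β j * M' i k := e2 j i k
  have e3' : X₄ i j k = γ k * M'' j i := e3 k j i
  rw [h3, h6, e1, e2', e3']

/-- the parameters of the image that has to be avoided -/
abbrev Par (i : ι) (N : ℕ) : Type :=
  ({j : ι // j ≠ i} × Fin N × Fin N × Fin N) ⊕ ((Fin 3 × Fin N × (ι × Fin N)) ⊕
    ((Fin 3 × Fin N) ⊕ (Fin 3 × Fin N × Fin N)))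

/-- the block sum of the other tensors as polynomials in the parameters -/
noncomputable def TAp (F : Type u) [Field F] (i : ι) (x y z : ι × Fin N) :
    MvPolynomial (Par i N) F :=
  if h : x.1 ≠ i then (if x.1 = y.1 ∧ y.1 = z.1 then
    X (Sum.inl (⟨x.1, h⟩, x.2, y.2, z.2)) else 0) else 0

/-- the polynomial map -/
noncomputable def pol (F : Type u) [Field F] (i : ι) (y : ι × Fin N × Fin N × Fin N) :
    MvPolynomial (Par i N) F :=
  if h : y.1 ≠ i then X (Sum.inl (⟨y.1, h⟩, y.2))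
  else (∑ a, ∑ b, ∑ c, X (Sum.inr (Sum.inl (0, y.2.1, a))) *
      X (Sum.inr (Sum.inl (1, y.2.2.1, b))) * X (Sum.inr (Sum.inl (2, y.2.2.2, c))) *
        TAp F i a b c) +
    (X (Sum.inr (Sum.inr (Sum.inl (0, y.2.1)))) *
        X (Sum.inr (Sum.inr (Sum.inr (0, y.2.2.1, y.2.2.2)))) +
      (X (Sum.inr (Sum.inr (Sum.inl (1, y.2.2.1)))) *
        X (Sum.inr (Sum.inr (Sum.inr (1, y.2.1, y.2.2.2)))) +
      X (Sum.inr (Sum.inr (Sum.inl (2, y.2.2.2)))) *
        X (Sum.inr (Sum.inr (Sum.inr (2, y.2.2.1, y.2.1))))))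

theorem card_par (i : ι) (N : ℕ) (hN : N = 3 * Fintype.card ι + 7) :
    Fintype.card (Par i N) + Fintype.card ι ≤ Fintype.card (ι × Fin N × Fin N × Fin N) := by
  have h1 : Fintype.card {j : ι // j ≠ i} + 1 = Fintype.card ι := by
    have h2 := Fintype.card_subtype_compl (fun j : ι => j = i)
    have h3 : Fintype.card {j : ι // j = i} = 1 := Fintype.card_subtype_eq i
    have h4 : 1 ≤ Fintype.card ι := Fintype.card_pos_iff.2 ⟨i⟩
    have h5 : Fintype.card {j : ι // j ≠ i} = Fintype.card {j : ι // ¬ j = i} := rfl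
    rw [h5, h2, h3]
    omega
  simp only [Fintype.card_sum, Fintype.card_prod, Fintype.card_fin]
  set n := Fintype.card ι
  set m := Fintype.card {j : ι // j ≠ i}
  have hn : n = m + 1 := h1.symm
  have e1 : n * (N * (N * N)) = m * (N * (N * N)) + N * (N * N) := by rw [hn]; ring
  rw [e1]
  have e2 : N * (N * N) = 3 * (n * (N * N)) + 7 * (N * N) := by
    have e0 : N * (N * N) = (3 * n + 7) * (N * N) := by rw [← hN]
    rw [e0]
    ring
  have e3 : n ≤ N := by omega
  have e4 : N ≤ N * N := by nlinarith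
  have e5 : 3 * (N * (n * N)) = 3 * (n * (N * N)) := by ring
  rw [e5]
  have e6 : m * (N * (N * N)) + (3 * (n * (N * N)) + (3 * N + 3 * (N * N))) + n ≤
      m * (N * (N * N)) + (3 * (n * (N * N)) + 7 * (N * N)) := by omega
  omega

/-- **Independent tensors.** For `N = 3 n + 7` there are `n` tensors of format `N × N × N` such
that none of them is a restriction of the direct sum of the others and of identity matrices of
arbitrary orders in the three directions. -/
theorem exists_independent (F : Type u) [Field F] (ι : Type) [Fintype ι] [DecidableEq ι] (N : ℕ)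
    (hN : N = 3 * Fintype.card ι + 7) :
    ∃ t : ι → Fin N → Fin N → Fin N → F, ∀ i, ∀ a b c : ℕ,
      ¬ Res (t i) (TU.ds (TA t (Finset.univ.erase i)) (EEE F a b c)) := by
  obtain ⟨t, ht⟩ := avoid (F := F) (τ := ι × Fin N × Fin N × Fin N) (fun i : ι => Par i N)
    (fun i => pol F i) (fun i => card_par i N hN)
  refine ⟨fun i u v w => t (i, u, v, w), fun i a b c hres => ?_⟩
  obtain ⟨X₁, X₂, h1, h2, h3⟩ := Res.of_ds hres
  obtain ⟨A, B, C, h1⟩ := h1
  obtain ⟨α, M, β, M', γ, M'', h2⟩ := res_EEE h2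
  let s : Par i N → F := Sum.elim (fun y => t (y.1.1, y.2)) (Sum.elim
    (fun y => if y.1 = 0 then A y.2.1 y.2.2 else if y.1 = 1 then B y.2.1 y.2.2 else C y.2.1 y.2.2)
    (Sum.elim (fun y => if y.1 = 0 then α y.2 else if y.1 = 1 then β y.2 else γ y.2)
      (fun y => if y.1 = 0 then M y.2.1 y.2.2 else if y.1 = 1 then M' y.2.1 y.2.2
        else M'' y.2.1 y.2.2)))
  obtain ⟨y, hy⟩ := ht i s
  apply hy
  obtain ⟨j, u, v, w⟩ := y
  by_cases hj : j ≠ i
  · simp [pol, hj, s]
  · push Not at hj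
    subst hj
    have e1 : t (j, u, v, w) = X₁ u v w + X₂ u v w := h3 u v w
    have eTA : ∀ x y z : ι × Fin N, eval s (TAp F j x y z) =
        TA (fun i u v w => t (i, u, v, w)) (Finset.univ.erase j) x y z := by
      intro x y z
      unfold TAp TA
      by_cases hx : x.1 ≠ j
      · by_cases hxy : x.1 = y.1 ∧ y.1 = z.1
        · simp [hxy.1, hxy.2, s]
          have := hxy.1
          have := hxy.2
          simp_all
        · have : ¬ (x.1 = y.1 ∧ y.1 = z.1 ∧ x.1 ∈ Finset.univ.erase j) := fun h =>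
            hxy ⟨h.1, h.2.1⟩
          simp [hx, hxy]
      · push Not at hx
        simp [hx]
    have e2 : eval s (pol F j (j, u, v, w)) = (∑ x, ∑ y, ∑ z, A u x * B v y * C w z *
        TA (fun i u v w => t (i, u, v, w)) (Finset.univ.erase j) x y z) +
        (α u * M v w + (β v * M' u w + γ w * M'' v u)) := by
      unfold pol
      simp only [ne_eq, not_true_eq_false, dite_false, map_add, map_sum, map_mul, eval_X, eTA]
      simp [s]
    rw [e1, e2, h1, h2]

end

end Pool.Agent.Y209.TU
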