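import Mathlib
import Pool.Agent.Y209.TU.Blocks

/-!
# Which preorders embed into the restriction preorder
-/

set_option autoImplicit false

namespace Pool.Agent.Y209.TU

open Pool.Agent.H759R3.Tensor

universe u v

variable {F : Type u} [Field F]

theorem EE_mono {a a' : ℕ} (h : a ≤ a') : Res (EE F a) (EE F a') := by
  refine ⟨fun _ _ => 1, fun j j' => if Fin.castLE h j = j' then 1 else 0,
    fun j j' => if Fin.castLE h j = j' then 1 else 0, fun i j k => ?_⟩
  simp [EE]

theorem EEE_mono {a a' b b' c c' : ℕ} (h1 : a ≤ a') (h2 : b ≤ b') (h3 : c ≤ c') :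
    Res (EEE F a b c) (EEE F a' b' c') :=
  (EE_mono h1).ds ((EE_mono h2).sw.ds (EE_mono h3).sx)

/-- comparison of the orders of the three identity matrices -/
theorem EEE_le {I₁ I₂ I₃ J₁ J₂ J₃ : Type} [Fintype I₁] [Fintype I₂] [Fintype I₃]
    [Fintype J₁] [Fintype J₂] [Fintype J₃] [DecidableEq I₁] [DecidableEq I₂] [DecidableEq I₃]
    [DecidableEq J₁] [DecidableEq J₂] [DecidableEq J₃] {X : I₁ → I₂ → I₃ → F}
    {Y : J₁ → J₂ → J₃ → F} {a b c a' b' c' M : ℕ} (h1 : Fintype.card J₁ ≤ M)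
    (h3 : Fintype.card J₃ ≤ M)
    (h : Res (TU.ds X (EEE F a b c)) (TU.ds Y (EEE F a' b' c'))) :
    a ≤ M + a' + 2 ∧ b ≤ M + b' + 2 ∧ c ≤ M + c' + 2 := by
  have u0 : Fintype.card Unit ≤ 1 := by simp
  refine ⟨?_, ?_, ?_⟩
  · have r1 : RkLe (TU.ds Y (EEE F a' b' c')) (M + (a' + (1 + 1))) :=
      (rkLe_width Y h3).ds ((rkLe_width _ (by simp)).ds
        ((rkLe_height _ u0).ds (rkLe_width _ u0)))
    have r2 := r1.res h
    have r3 : Res (EE F a) (TU.ds X (EEE F a b c)) :=
      (res_left _ _).trans (res_right X (EEE F a b c))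
    have := EE_le (r2.res r3)
    omega
  · have r1 : RkLe (sw (TU.ds Y (EEE F a' b' c'))) (M + (1 + (b' + 1))) := by
      unfold EEE
      rw [sw_ds, sw_ds, sw_ds]
      exact (rkLe_width (sw Y) h3).ds ((rkLe_height _ u0).ds
        ((rkLe_width _ (by simp)).ds (rkLe_width _ u0)))
    have r2 := r1.res h.sw
    have r3 : Res (EE F b) (sw (TU.ds X (EEE F a b c))) := by
      unfold EEE
      rw [sw_ds, sw_ds, sw_ds]
      have e : sw (sw (EE F b)) = EE F b := rfl
      rw [e]
      exact ((res_left (EE F b) _).trans (res_right _ _)).trans (res_right _ _)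
    have := EE_le (r2.res r3)
    omega
  · have r1 : RkLe (sx (TU.ds Y (EEE F a' b' c'))) (M + (1 + (1 + c'))) := by
      unfold EEE
      rw [sx_ds, sx_ds, sx_ds]
      exact (rkLe_width (sx Y) h1).ds ((rkLe_width _ u0).ds
        ((rkLe_height _ u0).ds (rkLe_width _ (by simp))))
    have r2 := r1.res h.sx
    have r3 : Res (EE F c) (sx (TU.ds X (EEE F a b c))) := by
      unfold EEE
      rw [sx_ds, sx_ds, sx_ds]
      have e : sx (sx (EE F c)) = EE F c := rfl
      rw [e]
      exact ((res_right _ (EE F c)).trans (res_right _ _)).trans (res_right _ _)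
    have := EE_le (r2.res r3)
    omega

/-- **Products of a finite preorder with three copies of `ℕ` embed.** -/
theorem embed_prod (F : Type u) [Field F] (Q : Type) [Finite Q] [Preorder Q] :
    ∃ φ : Q × ℕ × ℕ × ℕ → T3 F, ∀ x y, x ≤ y ↔ Restricts (φ x) (φ y) := by
  classical
  have := Fintype.ofFinite Q
  obtain ⟨N, hN⟩ : ∃ N, N = 3 * Fintype.card Q + 7 := ⟨_, rfl⟩
  obtain ⟨t, ht⟩ := exists_independent F Q N hN
  let dn : Q → Finset Q := fun q => Finset.univ.filter fun r => r ≤ q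
  set M := Fintype.card (Q × Fin N) with hM
  refine ⟨fun x => toT3 (TU.ds (TA t (dn x.1)) (EEE F ((M + 3) * x.2.1) ((M + 3) * x.2.2.1)
    ((M + 3) * x.2.2.2))), ?_⟩
  rintro ⟨q, a, b, c⟩ ⟨q', a', b', c'⟩
  rw [restricts_toT3]
  have hle : ((q, a, b, c) : Q × ℕ × ℕ × ℕ) ≤ (q', a', b', c') ↔
      q ≤ q' ∧ a ≤ a' ∧ b ≤ b' ∧ c ≤ c' := by
    simp only [Prod.mk_le_mk]
  rw [hle]
  constructor
  · rintro ⟨h0, h1, h2, h3⟩
    refine (TA_mono t ?_).ds (EEE_mono (Nat.mul_le_mul_left _ h1) (Nat.mul_le_mul_left _ h2)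
      (Nat.mul_le_mul_left _ h3))
    intro r hr
    simp only [dn, Finset.mem_filter, Finset.mem_univ, true_and] at hr ⊢
    exact hr.trans h0
  · intro h
    have hnat : ∀ x y : ℕ, (M + 3) * x ≤ M + (M + 3) * y + 2 → x ≤ y := by
      intro x y hxy
      by_contra hlt
      have h2 : (M + 3) * (y + 1) ≤ (M + 3) * x := Nat.mul_le_mul_left _ (by omega)
      rw [mul_add, mul_one] at h2
      omega
    obtain ⟨h1, h2, h3⟩ := EEE_le (M := M) le_rfl le_rfl h
    refine ⟨?_, hnat _ _ h1, hnat _ _ h2, hnat _ _ h3⟩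
    by_contra hq
    have m1 : q ∈ dn q := by simp [dn]
    have m2 : dn q' ⊆ Finset.univ.erase q := by
      intro r hr
      simp only [dn, Finset.mem_filter, Finset.mem_univ, true_and] at hr
      simp only [Finset.mem_erase, Finset.mem_univ, and_true]
      rintro rfl
      exact hq hr
    have e1 : Res (t q) (TU.ds (TA t (dn q)) (EEE F ((M + 3) * a) ((M + 3) * b) ((M + 3) * c))) :=
      (res_TA t m1).trans (res_left _ _)
    have e2 : Res (TU.ds (TA t (dn q')) (EEE F ((M + 3) * a') ((M + 3) * b') ((M + 3) * c')))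
        (TU.ds (TA t (Finset.univ.erase q))
          (EEE F ((M + 3) * a') ((M + 3) * b') ((M + 3) * c'))) :=
      (TA_mono t m2).ds (EEE_mono le_rfl le_rfl le_rfl)
    exact ht q _ _ _ ((e1.trans h).trans e2)

theorem msize_le_size (T : T3 F) : msize T ≤ size T :=
  Nat.sInf_le ⟨T, Restricts.refl T, Restricts.refl T, rfl⟩

/-- strict chains below a tensor are short -/
theorem chain_le (T : T3 F) (m : ℕ) (s : Fin (m + 1) → T3 F)
    (hs : ∀ i j, i < j → Restricts (s i) (s j) ∧ ¬ Restricts (s j) (s i))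
    (hT : Restricts (s (Fin.last m)) T) : m ≤ T.n₁ + T.n₂ + T.n₃ := by
  have h : ∀ k : ℕ, ∀ hk : k < m + 1, k ≤ msize (s ⟨k, hk⟩) := by
    intro k
    induction k with
    | zero => intro _; exact Nat.zero_le _
    | succ k ih =>
      intro hk
      have h1 := ih (by omega)
      have h2 := hs ⟨k, by omega⟩ ⟨k + 1, hk⟩ (by simp [Fin.lt_def])
      have h3 := msize_lt h2.1 h2.2
      omega
  have h1 := h m (by omega)
  have h2 := msize_mono hT
  have h3 := msize_le_size T
  have h4 : (⟨m, by omega⟩ : Fin (m + 1)) = Fin.last m := rfl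
  rw [h4] at h1
  unfold size at h3
  omega

theorem rkLe_unit {r m : ℕ} (h : RkLe (unit F r).val m) : r ≤ m := by
  classical
  have h1 := h (fun _ => 1)
  have e : (Matrix.of fun j k => ∑ i : Fin r, 1 * (unit F r).val i j k :
      Matrix (Fin r) (Fin r) F) = 1 := by
    ext j k
    rw [Matrix.of_apply]
    by_cases hjk : j = k
    · subst hjk
      rw [Finset.sum_eq_single j]
      · simp [unit]
      · intro i _ hi
        simp [unit, hi]
      · simp
    · rw [Matrix.one_apply_ne hjk]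
      refine Finset.sum_eq_zero fun i _ => ?_
      simp only [unit, one_mul, ite_eq_right_iff]
      rintro ⟨h1, h2⟩
      exact absurd h2 hjk
  have h2 : (Matrix.of fun j k => ∑ i : Fin r, 1 * (unit F r).val i j k :
      Matrix (Fin r) (Fin r) F).rank ≤ m := h1
  rw [e, Matrix.rank_one, Fintype.card_fin] at h2
  exact h2

theorem unit_iff {r s : ℕ} : Restricts (unit F r) (unit F s) ↔ r ≤ s := by
  constructor
  · rintro ⟨A, B, C, h⟩
    have h1 : Res (unit F r).val (unit F s).val := ⟨A, B, C, fun i j k => by rw [h]; rfl⟩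
    have h2 : RkLe (unit F s).val s := rkLe_width _ (le_of_eq (Fintype.card_fin s))
    exact rkLe_unit (h2.res h1)
  · intro h
    let A : Matrix (Fin r) (Fin s) F := fun i i' => if Fin.castLE h i = i' then 1 else 0
    refine ⟨A, A, A, ?_⟩
    have e : ∀ i j k : Fin r, (unit F r).val i j k = act A A A (unit F s).val i j k := by
      intro i j k
      show (if i = j ∧ j = k then (1 : F) else 0) = ∑ i' : Fin s, ∑ j' : Fin s, ∑ k' : Fin s,
        A i i' * A j j' * A k k' * (if i' = j' ∧ j' = k' then (1 : F) else 0)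
      rw [Finset.sum_eq_single (Fin.castLE h i), Finset.sum_eq_single (Fin.castLE h j),
        Finset.sum_eq_single (Fin.castLE h k)]
      · simp [A]
      · intro x _ hx
        simp [A, hx.symm]
      · simp
      · intro x _ hx
        simp [A, hx.symm]
      · simp
      · intro x _ hx
        simp [A, hx.symm]
      · simp
    funext i j k
    exact e i j k

/-- total preorders that embed are those which embed into `ℕ` -/
theorem total_iff (F : Type u) [Field F] (P : Type v) [Preorder P]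
    (ht : ∀ x y : P, x ≤ y ∨ y ≤ x) :
    (∃ φ : P → T3 F, ∀ x y, x ≤ y ↔ Restricts (φ x) (φ y)) ↔
      ∃ g : P → ℕ, ∀ x y, x ≤ y ↔ g x ≤ g y := by
  constructor
  · rintro ⟨φ, hφ⟩
    refine ⟨fun x => msize (φ x), fun x y => ⟨fun h => msize_mono ((hφ x y).1 h), fun h => ?_⟩⟩
    by_contra hxy
    have hyx := (ht x y).resolve_left hxy
    have h1 := msize_lt ((hφ y x).1 hyx) (fun h1 => hxy ((hφ x y).2 h1))
    have h2 : msize (φ x) ≤ msize (φ y) := h
    omega
  · rintro ⟨g, hg⟩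
    exact ⟨fun x => unit F (g x), fun x y => by rw [hg, unit_iff]⟩

/-- monotone functions take few values on bounded parts of a chain indexed by the rationals -/
theorem few_values (c : ℚ → T3 F) (hc : ∀ q r : ℚ, 2 ≤ q → q ≤ r → Restricts (c q) (c r))
    (r : ℚ) (f : T3 F → ℝ) (hf : ∀ S T, Restricts S T → f S ≤ f T) :
    {y : ℝ | ∃ q : ℚ, 2 ≤ q ∧ q ≤ r ∧ f (c q) = y}.Finite ∧
    {y : ℝ | ∃ q : ℚ, 2 ≤ q ∧ q ≤ r ∧ f (c q) = y}.ncard ≤
      (c r).n₁ + (c r).n₂ + (c r).n₃ + 1 := by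
  classical
  set V := {y : ℝ | ∃ q : ℚ, 2 ≤ q ∧ q ≤ r ∧ f (c q) = y} with hV
  let g : ℝ → ℕ := fun y => if hy : ∃ q : ℚ, 2 ≤ q ∧ q ≤ r ∧ f (c q) = y then
    msize (c hy.choose) else 0
  have hg : ∀ y ∈ V, ∃ q : ℚ, 2 ≤ q ∧ q ≤ r ∧ f (c q) = y ∧ g y = msize (c q) := by
    intro y hy
    have hy' : ∃ q : ℚ, 2 ≤ q ∧ q ≤ r ∧ f (c q) = y := hy
    obtain ⟨h1, h2, h3⟩ := hy'.choose_spec
    refine ⟨hy'.choose, h1, h2, h3, ?_⟩
    simp only [g]
    rw [dif_pos hy']
  have key : ∀ q q' : ℚ, 2 ≤ q → q ≤ q' → msize (c q) = msize (c q') → f (c q) = f (c q') := by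
    intro q q' h1 h2 h3
    have h4 := hc q q' h1 h2
    refine le_antisymm (hf _ _ h4) (hf _ _ ?_)
    by_contra h5
    have := msize_lt h4 h5
    omega
  have hmap : Set.MapsTo g V (Set.Iic ((c r).n₁ + (c r).n₂ + (c r).n₃)) := by
    intro y hy
    obtain ⟨q, h1, h2, h3, h4⟩ := hg y hy
    rw [Set.mem_Iic, h4]
    exact (msize_mono (hc q r h1 h2)).trans (msize_le_size _)
  have hinj : Set.InjOn g V := by
    intro y hy y' hy' hyy
    obtain ⟨q, h1, h2, h3, h4⟩ := hg y hy
    obtain ⟨q', h1', h2', h3', h4'⟩ := hg y' hy'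
    rw [h4, h4'] at hyy
    rcases le_total q q' with h | h
    · rw [← h3, ← h3', key q q' h1 h hyy]
    · rw [← h3, ← h3', key q' q h1' h hyy.symm]
  have hfin : (Set.Iic ((c r).n₁ + (c r).n₂ + (c r).n₃)).Finite := Set.finite_Iic _
  refine ⟨Set.Finite.of_injOn hmap hinj hfin, ?_⟩
  have h1 := Set.ncard_le_ncard_of_injOn g hmap hinj hfin
  have h2 : (Set.Iic ((c r).n₁ + (c r).n₂ + (c r).n₃)).ncard =
      (c r).n₁ + (c r).n₂ + (c r).n₃ + 1 := by
    rw [Set.ncard_eq_toFinset_card' (Set.Iic ((c r).n₁ + (c r).n₂ + (c r).n₃))]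
    simp
  rw [h2] at h1
  exact h1

end Pool.Agent.Y209.TU
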